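import Pool.Agent.V1157.MW.Law

/-!
# Invariant vectors in the square of the cohomology of a variety over a local field
-/

set_option autoImplicit false

open Module TensorProduct Finset

universe u v w

namespace Pool.Agent.H44T.MW

open Pool.Agent.Y143 Pool.Agent.H914 Pool.Agent.Y163.MW Pool.Agent.Y163.MW.Coh
  Pool.Agent.V1157.MW

set_option linter.unusedSectionVars false

section lin

variable {Ω : Type w} [Field Ω] {V V' V'' : Type v} [AddCommGroup V] [Module Ω V]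
  [AddCommGroup V'] [Module Ω V'] [AddCommGroup V''] [Module Ω V'']

/-- The invariant form. -/
noncomputable def phi (g : V →ₗ[Ω] Ω) (N : Module.End Ω V) (s : ℕ) : V ⊗[Ω] V →ₗ[Ω] Ω :=
  ∑ a ∈ range (s + 1), ((-1 : Ω) ^ a) • ((TensorProduct.lid Ω Ω).toLinearMap ∘ₗ
    TensorProduct.map (g ∘ₗ (N ^ a)) (g ∘ₗ (N ^ (s - a))))

lemma phi_tmul (g : V →ₗ[Ω] Ω) (N : Module.End Ω V) (s : ℕ) (x y : V) :
    phi g N s (x ⊗ₜ y) =
      ∑ a ∈ range (s + 1), (-1 : Ω) ^ a * (g ((N ^ a) x) * g ((N ^ (s - a)) y)) := by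
  rw [phi, LinearMap.sum_apply]
  apply Finset.sum_congr rfl
  intro a _
  simp

lemma phi_N {g : V →ₗ[Ω] Ω} {N : Module.End Ω V} {s : ℕ} (hg : ∀ x, g ((N ^ (s + 1)) x) = 0)
    (x y : V) : phi g N s (N x ⊗ₜ y) + phi g N s (x ⊗ₜ N y) = 0 := by
  rw [phi_tmul, phi_tmul, ← Finset.sum_add_distrib]
  let f : ℕ → Ω := fun a => (-1 : Ω) ^ a * (g ((N ^ a) x) * g ((N ^ (s + 1 - a)) y))
  have h : ∀ a ∈ range (s + 1), (-1 : Ω) ^ a * (g ((N ^ a) (N x)) * g ((N ^ (s - a)) y)) +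
      (-1 : Ω) ^ a * (g ((N ^ a) x) * g ((N ^ (s - a)) (N y))) = f a - f (a + 1) := by
    intro a ha
    have ha' := Finset.mem_range.1 ha
    have e1 : (N ^ a) (N x) = (N ^ (a + 1)) x := by rw [pow_succ, Module.End.mul_apply]
    have e2 : (N ^ (s - a)) (N y) = (N ^ (s + 1 - a)) y := by
      rw [show s + 1 - a = (s - a) + 1 by omega, pow_succ, Module.End.mul_apply]
    have e3 : s + 1 - (a + 1) = s - a := by omega
    simp only [f]
    rw [e1, e2, e3, pow_succ]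
    ring
  rw [Finset.sum_congr rfl h, Finset.sum_range_sub']
  have h0 : f 0 = 0 := by
    simp only [f]
    rw [Nat.sub_zero, hg y, mul_zero, mul_zero]
  have h1 : f (s + 1) = 0 := by
    simp only [f]
    rw [hg x, zero_mul, mul_zero]
  rw [h0, h1, sub_zero]

/-- The invariant vector. -/
noncomputable def zed (κ : V ⊗[Ω] V ≃ₗ[Ω] V'') (N : Module.End Ω V) (s : ℕ) (y : V) : V'' :=
  ∑ a ∈ range (s + 1), ((-1 : Ω) ^ a) • tm κ ((N ^ (s - a)) y) ((N ^ a) y)

lemma N_zed {κ : V ⊗[Ω] V ≃ₗ[Ω] V''} {N : Module.End Ω V} {N'' : Module.End Ω V''}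
    (hN : KLeibniz κ N N N'') {s : ℕ} {y : V} (hy : (N ^ (s + 1)) y = 0) :
    N'' (zed κ N s y) = 0 := by
  rw [zed, map_sum]
  let f : ℕ → V'' := fun a => ((-1 : Ω) ^ a) • tm κ ((N ^ (s + 1 - a)) y) ((N ^ a) y)
  have h : ∀ a ∈ range (s + 1), N'' (((-1 : Ω) ^ a) • tm κ ((N ^ (s - a)) y) ((N ^ a) y)) =
      f a - f (a + 1) := by
    intro a ha
    have ha' := Finset.mem_range.1 ha
    have e1 : N ((N ^ a) y) = (N ^ (a + 1)) y := by rw [pow_succ', Module.End.mul_apply]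
    have e2 : N ((N ^ (s - a)) y) = (N ^ (s + 1 - a)) y := by
      rw [show s + 1 - a = (s - a) + 1 by omega, pow_succ', Module.End.mul_apply]
    have e3 : s + 1 - (a + 1) = s - a := by omega
    have e4 : (-1 : Ω) ^ (a + 1) = -(-1) ^ a := by rw [pow_succ, mul_neg_one]
    simp only [f]
    rw [map_smul, hN, e1, e2, e3, smul_add, e4, neg_smul, sub_neg_eq_add]
  rw [Finset.sum_congr rfl h, Finset.sum_range_sub']
  have h0 : f 0 = 0 := by
    simp only [f]
    rw [Nat.sub_zero, hy, tm, TensorProduct.zero_tmul, map_zero, smul_zero]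
  have h1 : f (s + 1) = 0 := by
    simp only [f]
    rw [hy, tm, TensorProduct.tmul_zero, map_zero, smul_zero]
  rw [h0, h1, sub_zero]

lemma phi_zed {κ : V ⊗[Ω] V ≃ₗ[Ω] V''} {g : V →ₗ[Ω] Ω} {N : Module.End Ω V} {s : ℕ} {y : V}
    (hg : ∀ x, g ((N ^ (s + 1)) x) = 0) (hy : g ((N ^ s) y) = 1) :
    phi g N s (κ.symm (zed κ N s y)) = (s + 1 : ℕ) := by
  have hbig : ∀ k, s < k → g ((N ^ k) y) = 0 := by
    intro k hk
    obtain ⟨j, rfl⟩ : ∃ j, k = s + 1 + j := ⟨k - (s + 1), by omega⟩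
    rw [pow_add, Module.End.mul_apply]
    exact hg _
  have h : ∀ a ∈ range (s + 1),
      phi g N s (κ.symm (((-1 : Ω) ^ a) • tm κ ((N ^ (s - a)) y) ((N ^ a) y))) = 1 := by
    intro a ha
    have ha' := Finset.mem_range.1 ha
    rw [map_smul, map_smul, tm, LinearEquiv.symm_apply_apply, phi_tmul, smul_eq_mul,
      Finset.sum_eq_single a]
    · rw [← Module.End.mul_apply, ← pow_add, ← Module.End.mul_apply, ← pow_add,
        show a + (s - a) = s by omega, show s - a + a = s by omega, hy, mul_one, mul_one,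
        ← mul_pow, neg_one_mul, neg_neg, one_pow]
    · intro b hb hba
      have hb' := Finset.mem_range.1 hb
      rw [← Module.End.mul_apply, ← pow_add, ← Module.End.mul_apply, ← pow_add]
      rcases Nat.lt_or_ge a b with h1 | h1
      · rw [hbig (b + (s - a)) (by omega), zero_mul, mul_zero]
      · rw [hbig (s - b + a) (by omega), mul_zero, mul_zero]
    · intro h1; exact absurd ha h1
  rw [zed, map_sum, map_sum, Finset.sum_congr rfl h, Finset.sum_const, Finset.card_range,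
    nsmul_eq_mul, mul_one]

/-- The invariant vector is not in the image of the monodromy. -/
lemma zed_notMem [CharZero Ω] {κ : V ⊗[Ω] V ≃ₗ[Ω] V''} {N : Module.End Ω V}
    {N'' : Module.End Ω V''} (hN : KLeibniz κ N N N'') {s : ℕ} {y : V}
    (hy : (N ^ s) y ∉ LinearMap.range (N ^ (s + 1))) :
    zed κ N s y ∉ LinearMap.range N'' := by
  obtain ⟨g, hg1, hg2⟩ := Submodule.exists_le_ker_of_notMem hy
  set g' : V →ₗ[Ω] Ω := (g ((N ^ s) y))⁻¹ • g with hg'
  have h1 : g' ((N ^ s) y) = 1 := by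
    rw [hg', LinearMap.smul_apply, smul_eq_mul, inv_mul_cancel₀ hg1]
  have h2 : ∀ x, g' ((N ^ (s + 1)) x) = 0 := by
    intro x
    rw [hg', LinearMap.smul_apply, LinearMap.mem_ker.1 (hg2 ⟨x, rfl⟩), smul_zero]
  rintro ⟨t, ht⟩
  have h3 : ∀ u : V ⊗[Ω] V, phi g' N s (κ.symm (N'' (κ u))) = 0 := by
    intro u
    induction u using TensorProduct.induction_on with
    | zero => simp
    | tmul x x' =>
      have := hN x x'
      rw [tm, tm, tm] at this
      rw [this, map_add, map_add, LinearEquiv.symm_apply_apply, LinearEquiv.symm_apply_apply]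
      exact phi_N h2 x x'
    | add u u' hu hu' => rw [map_add, map_add, map_add, map_add, hu, hu', add_zero]
  have h4 := h3 (κ.symm t)
  rw [LinearEquiv.apply_symm_apply, ht, phi_zed h2 h1] at h4
  exact (Nat.cast_ne_zero.2 (Nat.succ_ne_zero s)) h4

lemma F_pow {F N : Module.End Ω V} {c : Ω} (h : Twisted c F N) : ∀ (k : ℕ) (x : V),
    (N ^ k) (F x) = c ^ k • F ((N ^ k) x)
  | 0, x => by simp
  | k + 1, x => by
    rw [pow_succ, Module.End.mul_apply, Module.End.mul_apply, h, map_smul, F_pow h k, smul_smul,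
      pow_succ, mul_comm]

lemma F_zed {κ : V ⊗[Ω] V ≃ₗ[Ω] V''} {F N : Module.End Ω V} {F'' : Module.End Ω V''}
    (hF : KMultiplicative κ F F F'') {c α : Ω} (hc : c ≠ 0) (h : Twisted c F N) {y : V}
    (hy : F y = α • y) (s : ℕ) : F'' (zed κ N s y) = (α * α * (c ^ s)⁻¹) • zed κ N s y := by
  have e : ∀ k, F ((N ^ k) y) = ((c ^ k)⁻¹ * α) • (N ^ k) y := by
    intro k
    have h1 := F_pow h k y
    rw [hy, map_smul] at h1
    rw [mul_smul, h1, smul_smul, inv_mul_cancel₀ (pow_ne_zero k hc), one_smul]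
  rw [zed, map_sum, Finset.smul_sum]
  apply Finset.sum_congr rfl
  intro a ha
  have ha' := Finset.mem_range.1 ha
  rw [map_smul, hF, e, e, tm, tm, TensorProduct.smul_tmul_smul, map_smul, smul_smul, smul_smul]
  congr 1
  rw [mul_comm]
  congr 1
  have : (c ^ s)⁻¹ = (c ^ (s - a))⁻¹ * (c ^ a)⁻¹ := by
    rw [← mul_inv, ← pow_add, Nat.sub_add_cancel (by omega)]
  rw [this]
  ring

end lin

section

variable {Ω : Type w} [Field Ω] [CharZero Ω] [IsAlgClosed Ω] {R R' R'' : Coh.{v, w} Ω} {q : ℕ}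

/-- There is a vector of `H^m` of excess `e` killed by `N ^ (s + 1)`, with `e - s = c`. -/
def Bad (R : Coh.{v, w} Ω) (q : ℕ) (c : ℤ) : Prop :=
  ∃ (m : ℕ) (e : ℤ) (s : ℕ) (x : R.V), e - s = c ∧ x ∈ R.exc q m e ∧ x ≠ 0 ∧
    (R.N ^ (s + 1)) x = 0

lemma N_pow_exc (hq : 1 < q) (hR : R.IsCoh q) (m : ℕ) : ∀ (k : ℕ) (c : ℤ), ∀ x ∈ R.exc q m c,
    (R.N ^ k) x ∈ R.exc q m (c - 2 * k)
  | 0, c, x, hx => by simpa using hx
  | k + 1, c, x, hx => by
    rw [pow_succ', Module.End.mul_apply]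
    have := N_exc hq hR m _ _ (N_pow_exc hq hR m k c x hx)
    rwa [show c - 2 * (k : ℤ) - 2 = c - 2 * ((k + 1 : ℕ) : ℤ) by push_cast; ring] at this

/-- A vector of excess `c - 2 k` in the image of `N ^ k` comes from a vector of excess `c`. -/
lemma exists_lift (hq : 1 < q) (hR : R.IsCoh q) {m k : ℕ} {c : ℤ} {y : R.V}
    (hy : y ∈ R.exc q m (c - 2 * k)) (h : y ∈ LinearMap.range (R.N ^ k)) :
    ∃ u ∈ R.exc q m c, (R.N ^ k) u = y := by
  classical
  obtain ⟨v, hv⟩ := h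
  have htop : v ∈ ⨆ p : ℕ × ℤ, R.exc q p.1 p.2 := by
    have h1 : (⊤ : Submodule Ω R.V) ≤ ⨆ p : ℕ × ℤ, R.exc q p.1 p.2 := by
      rw [← hR.isInternal.submodule_iSup_eq_top]
      refine iSup_le fun m => ?_
      rw [← iSup_exc hR m]
      exact iSup_le fun c => le_iSup (fun p : ℕ × ℤ => R.exc q p.1 p.2) (m, c)
    exact h1 Submodule.mem_top
  obtain ⟨f, hf, hfx⟩ := (Submodule.mem_iSup_iff_exists_finsupp _ _).1 htop
  have hind : iSupIndep (fun p : ℕ × ℤ => R.exc q p.1 (p.2 - 2 * k)) :=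
    (indep_exc hq hR).comp (f := fun p : ℕ × ℤ => (p.1, p.2 - 2 * (k : ℤ))) (by
      rintro ⟨a, b⟩ ⟨a', b'⟩ hab
      have h1 := (Prod.mk.inj hab).1
      have h2 := (Prod.mk.inj hab).2
      simp only at h1 h2
      rw [h1, show b = b' by omega])
  rw [iSupIndep_iff_finsetSum_eq_zero_imp_eq_zero] at hind
  refine ⟨f (m, c), hf (m, c), ?_⟩
  have h1 : ∑ p ∈ insert (m, c) f.support, ((R.N ^ k) (f p) - if p = (m, c) then y else 0) = 0 := by
    rw [Finset.sum_sub_distrib, Finset.sum_ite_eq' (insert (m, c) f.support) (m, c) (fun _ => y),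
      if_pos (Finset.mem_insert_self _ _), ← map_sum]
    have h2 : ∑ p ∈ insert (m, c) f.support, f p = v := by
      rw [← hfx, Finsupp.sum]
      symm
      refine Finset.sum_subset (Finset.subset_insert _ _) fun i _ hi => ?_
      exact Finsupp.notMem_support_iff.1 hi
    rw [h2, hv, sub_self]
  have h2 := hind (insert (m, c) f.support) _ ?_ h1 (m, c) (Finset.mem_insert_self _ _)
  · rw [if_pos rfl, sub_eq_zero] at h2
    exact h2
  · intro p _
    refine Submodule.sub_mem _ (N_pow_exc hq hR p.1 k p.2 _ (hf p)) ?_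
    split_ifs with hp
    · rw [hp]
      exact hy
    · exact Submodule.zero_mem _

/-- There are only finitely many excesses. -/
lemma exists_bound (hq : 1 < q) (hR : R.IsCoh q) : ∃ b : ℤ, ∀ c, Bad R q c → c ≤ b := by
  have := hR.finite
  have hfin := WellFoundedGT.finite_ne_bot_of_iSupIndep (indep_exc hq hR)
  obtain ⟨b, hb⟩ := (hfin.image (fun p : ℕ × ℤ => p.2)).bddAbove
  refine ⟨b, ?_⟩
  rintro c ⟨m, e, s, x, hc, hx, hx0, -⟩
  have h1 : e ≤ b := hb ⟨(m, e), (Submodule.ne_bot_iff _).2 ⟨x, hx, hx0⟩, rfl⟩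
  omega

/-- If the cohomology is not pure, there is a positive bad number. -/
lemma exists_bad (hq : 1 < q) (hR : R.IsCoh q) (h : ¬ ∀ m, R.MWPure q m) :
    ∃ c, 1 ≤ c ∧ Bad R q c := by
  classical
  have := hR.finite
  by_contra hno
  push Not at hno
  apply h
  rw [← centred_tot_iff hq hR]
  have hinj : ∀ (a : ℕ) (m : ℕ), ∀ x ∈ R.exc q m a, (R.N ^ a) x = 0 → x = 0 := by
    intro a m x hx h0
    rcases Nat.eq_zero_or_pos a with rfl | ha
    · simpa using h0
    · by_contra hx0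
      refine hno 1 le_rfl ⟨m, a, a - 1, x, ?_, hx, hx0, ?_⟩
      · omega
      · rwa [Nat.sub_add_cancel ha]
  have hind := hR.isInternal.submodule_iSupIndep
  rw [iSupIndep_iff_finsetSum_eq_zero_imp_eq_zero] at hind
  have hinj' : ∀ (a : ℕ), ∀ x ∈ R.tot q a, (R.N ^ a) x = 0 → x = 0 := by
    intro a x hx h0
    obtain ⟨f, hf, hfx⟩ := (Submodule.mem_iSup_iff_exists_finsupp _ _).1 hx
    rw [← hfx, Finsupp.sum, map_sum] at h0
    rw [← hfx, Finsupp.sum]
    refine Finset.sum_eq_zero fun i hi => ?_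
    exact hinj a i _ (hf i) (hind f.support _ (fun i _ => exc_le i _ (N_pow_exc hq hR i a _ _ (hf i)))
      h0 i hi)
  intro a
  refine ⟨hinj' a, ?_⟩
  have hmap : ∀ x ∈ R.tot q (a : ℤ), (R.N ^ a) x ∈ R.tot q (-(a : ℤ)) := by
    intro x hx
    have h1 : R.tot q (a : ℤ) ≤ (R.tot q (-(a : ℤ))).comap (R.N ^ a) := by
      refine iSup_le fun m => ?_
      intro y hy
      have h2 := N_pow_exc hq hR m a _ y hy
      rw [show (a : ℤ) - 2 * a = -(a : ℤ) by ring] at h2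
      exact exc_le_tot m _ h2
    exact h1 hx
  let φ : R.tot q (a : ℤ) →ₗ[Ω] R.tot q (-(a : ℤ)) := (R.N ^ a).restrict hmap
  have hφ : Function.Injective φ := by
    rw [← LinearMap.ker_eq_bot, LinearMap.ker_eq_bot']
    intro x hx
    apply Subtype.ext
    exact hinj' a x x.2 (congrArg Subtype.val hx)
  have hφ' : Function.Surjective φ :=
    (LinearMap.injective_iff_surjective_of_finrank_eq_finrank (finrank_tot_neg hq hR a)).1 hφ
  intro y hy
  obtain ⟨x, hx⟩ := hφ' ⟨y, hy⟩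
  exact ⟨x, x.2, congrArg Subtype.val hx⟩

/-- **The extremal string.** If the cohomology is not pure, there are an eigenvector `y` of the
Frobenius and a number `s` smaller than the excess of `y` such that `N ^ (s + 1) y = 0` and `N ^ s y`
is not in the image of `N ^ (s + 1)`. -/
theorem exists_string (hq : 1 < q) (hR : R.IsCoh q) (h : ¬ ∀ m, R.MWPure q m) :
    ∃ (m : ℕ) (e : ℤ) (s : ℕ) (y : R.V) (α : Ω), 1 ≤ e - s ∧ y ∈ R.gr m ∧ R.F y = α • y ∧
      IsWeilNumber q (m + e) α ∧ (R.N ^ (s + 1)) y = 0 ∧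
      (R.N ^ s) y ∉ LinearMap.range (R.N ^ (s + 1)) := by
  classical
  have := hR.finite
  obtain ⟨c₀, hc₀, hb₀⟩ := exists_bad hq hR h
  obtain ⟨b, hb⟩ := exists_bound hq hR
  obtain ⟨c, hc, hmax⟩ := Int.exists_greatest_of_bdd (P := Bad R q) ⟨b, hb⟩ ⟨c₀, hb₀⟩
  have hc1 : 1 ≤ c := hc₀.trans (hmax c₀ hb₀)
  obtain ⟨m, e, s, x, hes, hx, hx0, hxN⟩ := hc
  have hq0 : (q : Ω) ≠ 0 := Nat.cast_ne_zero.2 (by omega)
  let S : Submodule Ω R.V := R.exc q m e ⊓ LinearMap.ker (R.N ^ (s + 1))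
  have hSF : ∀ z ∈ S, R.F z ∈ S := by
    rintro z ⟨h1, h2⟩
    refine ⟨F_exc hR m e z h1, ?_⟩
    change (R.N ^ (s + 1)) (R.F z) = 0
    rw [F_pow hR.N_F, show (R.N ^ (s + 1)) z = 0 from h2, map_zero, smul_zero]
  have hxS : x ∈ S := ⟨hx, LinearMap.mem_ker.2 hxN⟩
  have : Nontrivial S := ⟨⟨⟨x, hxS⟩, 0, fun h0 => hx0 (congrArg Subtype.val h0)⟩⟩
  obtain ⟨α, hα⟩ := Module.End.exists_eigenvalue (R.F.restrict hSF)
  obtain ⟨y, hy⟩ := hα.exists_hasEigenvector
  have hyS := y.2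
  have hy0 : (y : R.V) ≠ 0 := fun h0 => hy.2 (Subtype.ext h0)
  have hyF : R.F (y : R.V) = α • (y : R.V) := by
    have := congrArg Subtype.val hy.apply_eq_smul
    exact this
  have hyN : (R.N ^ (s + 1)) (y : R.V) = 0 := LinearMap.mem_ker.1 hyS.2
  have hno : ∀ z ∈ R.exc q m e, (R.N ^ s) z = 0 → z = 0 := by
    intro z hz hz0
    rcases Nat.eq_zero_or_pos s with rfl | hs
    · simpa using hz0
    · by_contra hne
      have := hmax (c + 1) ⟨m, e, s - 1, z, by omega, hz, hne, by rwa [Nat.sub_add_cancel hs]⟩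
      omega
  refine ⟨m, e, s, y, α, by omega, exc_le m e hyS.1, hyF, eigen_exc hq hR hyS.1 hy0 hyF, hyN, ?_⟩
  intro hmem
  have h1 : (R.N ^ s) (y : R.V) ∈ R.exc q m (e + 2 - 2 * (s + 1 : ℕ)) := by
    have := N_pow_exc hq hR m s e y hyS.1
    rwa [show e - 2 * (s : ℤ) = e + 2 - 2 * ((s + 1 : ℕ) : ℤ) by push_cast; ring] at this
  obtain ⟨u, hu, huy⟩ := exists_lift hq hR h1 hmem
  have h2 : R.N u ∈ R.exc q m e := by
    have := N_exc hq hR m (e + 2) u hu
    rwa [show e + 2 - 2 = e by ring] at this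
  have h3 : (y : R.V) - R.N u = 0 := by
    apply hno _ (Submodule.sub_mem _ hyS.1 h2)
    rw [map_sub, ← huy, pow_succ, Module.End.mul_apply, sub_self]
  have h4 : (y : R.V) = R.N u := sub_eq_zero.1 h3
  have hu0 : u ≠ 0 := by
    rintro rfl
    rw [map_zero] at h4
    exact hy0 h4
  have := hmax (c + 1) ⟨m, e + 2, s + 1, u, by push_cast; omega, hu, hu0, by
    rw [pow_succ, Module.End.mul_apply, ← h4, hyN]⟩
  omega

/-- **The criterion for the square.** -/
theorem square (hq : 1 < q) (hR : R.IsCoh q) {κ : R.V ⊗[Ω] R.V ≃ₗ[Ω] R''.V}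
    (hκ : IsKunneth R R R'' κ)
    (h : ∀ (m : ℕ) (c : ℤ) (β : Ω), ∀ x ∈ R''.gr (2 * m), R''.N x = 0 → R''.F x = β • x →
      IsWeilNumber q (2 * (m + c)) β → 1 ≤ c → x ∈ LinearMap.range R''.N) :
    ∀ m, R.MWPure q m := by
  by_contra hno
  obtain ⟨m, e, s, y, α, hes, hym, hyF, hα, hyN, hyr⟩ := exists_string hq hR hno
  have hq0 : (q : Ω) ≠ 0 := Nat.cast_ne_zero.2 (by omega)
  have hNgr : ∀ k : ℕ, (R.N ^ k) y ∈ R.gr m := by
    intro k
    induction k with
    | zero => simpa using hym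
    | succ k ih => rw [pow_succ', Module.End.mul_apply]; exact hR.N_gr m _ ih
  refine zed_notMem hκ.monodromy hyr (h m (e - s) _ _ ?_
    (N_zed hκ.monodromy hyN) (F_zed hκ.frob hq0 hR.N_F hyF s) ?_ hes)
  · rw [zed, two_mul]
    exact Submodule.sum_mem _ fun a _ => Submodule.smul_mem _ _
      (hκ.degree m m _ _ (hNgr _) (hNgr _))
  · have h1 := weil_mul (by omega : 0 < q) hα hα
    have h2 := h1.twist (by omega : q ≠ 0) (-(s : ℤ))
    rw [zpow_neg, zpow_natCast] at h2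
    have e1 : ((q : Ω) ^ s)⁻¹ * (α * α) = α * α * ((q : Ω) ^ s)⁻¹ := mul_comm _ _
    rw [e1] at h2
    rwa [show (m : ℤ) + e + (m + e) + 2 * -(s : ℤ) = 2 * (m + (e - s)) by ring] at h2

end

end Pool.Agent.H44T.MW
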