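import Pool.Agent.H44T.MW.Core

/-!
# Invariant vectors, weights and twists
-/

set_option autoImplicit false
set_option linter.unusedSectionVars false

open Module TensorProduct Finset

universe u v w

namespace Pool.Agent.H44T.MW

open Pool.Agent.Y143 Pool.Agent.H914 Pool.Agent.Y163.MW Pool.Agent.Y163.MW.Coh
  Pool.Agent.V1157.MW

variable {Ω : Type w} [Field Ω] [CharZero Ω] [IsAlgClosed Ω] {R R' R'' : Coh.{v, w} Ω} {q : ℕ}

lemma mem_exc {n : ℕ} {w : ℤ} {β : Ω} {x : R.V} (hx : x ∈ R.gr n)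
    (hF : R.F x = β • x) (hβ : IsWeilNumber q w β) : x ∈ R.exc q n (w - n) := by
  refine Submodule.mem_iSup_of_mem β (Submodule.mem_iSup_of_mem ?_ ?_)
  · rwa [show (n : ℤ) + (w - n) = w by ring]
  · refine Submodule.mem_inf.2 ⟨hx, ?_⟩
    rw [Module.End.mem_maxGenEigenspace]
    refine ⟨1, ?_⟩
    rw [pow_one, LinearMap.sub_apply, hF, LinearMap.smul_apply, Module.End.one_apply, sub_self]

/-- Purity: there are no invariants of too large weight. -/
lemma ker_pos (hq : 1 < q) (hR : R.IsCoh q) {n : ℕ} (h : R.MWPure q n) {w : ℤ} {β : Ω} {x : R.V}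
    (hx : x ∈ R.gr n) (hN : R.N x = 0) (hF : R.F x = β • x) (hβ : IsWeilNumber q w β)
    (hw : (n : ℤ) < w) : x = 0 := by
  have h1 := (mwPure_iff hq hR n).1 h
  obtain ⟨a, ha⟩ : ∃ a : ℕ, (a : ℤ) = w - n := ⟨(w - n).toNat, by omega⟩
  have h2 := mem_exc hx hF hβ
  rw [← ha] at h2
  refine (h1 a).1 x h2 ?_
  obtain ⟨j, rfl⟩ : ∃ j, a = j + 1 := ⟨a - 1, by omega⟩
  rw [pow_succ, Module.End.mul_apply, hN, map_zero]

/-- Purity: the invariants of smaller weight come from strings of the right length. -/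
lemma ker_neg (hq : 1 < q) (hR : R.IsCoh q) {n : ℕ} (h : R.MWPure q n) {w : ℤ} {β : Ω} {x : R.V}
    (hx : x ∈ R.gr n) (hF : R.F x = β • x) (hβ : IsWeilNumber q w β)
    {a : ℕ} (ha : (n : ℤ) = w + a) :
    ∃ u ∈ R.gr n, R.F u = ((q : Ω) ^ a * β) • u ∧ (R.N ^ a) u = x := by
  have h1 := (mwPure_iff hq hR n).1 h
  have h2 := mem_exc hx hF hβ
  rw [show w - n = -(a : ℤ) by omega] at h2
  obtain ⟨u, hu, hux⟩ := (h1 a).2 x h2
  refine ⟨u, exc_le n _ hu, ?_, hux⟩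
  rw [← sub_eq_zero]
  apply (h1 a).1 _ (Submodule.sub_mem _ (F_exc hR n a u hu) (Submodule.smul_mem _ _ hu))
  rw [map_sub, map_smul, F_pow hR.N_F, hux, hF, smul_smul, sub_self]

/-- Twisting with an unramified class. -/
lemma twist_mem {κ : R.V ⊗[Ω] R'.V ≃ₗ[Ω] R''.V} (hκ : IsKunneth R R' R'' κ) (hN' : R'.N = 0)
    {y : R'.V} (hy : y ≠ 0) {x : R.V} {k : ℕ}
    (h : tm κ x y ∈ LinearMap.range (R''.N ^ k)) : x ∈ LinearMap.range (R.N ^ k) := by
  obtain ⟨t, ht⟩ := h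
  obtain ⟨g, hg⟩ : ∃ g : R'.V →ₗ[Ω] Ω, g y = 1 := by
    obtain ⟨g, hg⟩ : ∃ g : Module.Dual Ω R'.V, g y ≠ 0 := by
      by_contra hno
      push Not at hno
      exact hy ((Module.forall_dual_apply_eq_zero_iff Ω y).1 hno)
    exact ⟨(g y)⁻¹ • g, by rw [LinearMap.smul_apply, smul_eq_mul, inv_mul_cancel₀ hg]⟩
  let ψ : R.V ⊗[Ω] R'.V →ₗ[Ω] R.V :=
    (TensorProduct.rid Ω R.V).toLinearMap ∘ₗ TensorProduct.map LinearMap.id g
  have hψ : ∀ a b, ψ (a ⊗ₜ b) = g b • a := by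
    intro a b
    simp [ψ]
  have h1 : ∀ u : R.V ⊗[Ω] R'.V, ψ (κ.symm (R''.N (κ u))) = R.N (ψ u) := by
    intro u
    induction u using TensorProduct.induction_on with
    | zero => simp
    | tmul a b =>
      have := hκ.monodromy a b
      rw [tm, tm, tm, hN'] at this
      rw [this, LinearMap.zero_apply, TensorProduct.tmul_zero, map_zero, add_zero,
        LinearEquiv.symm_apply_apply, hψ, hψ, map_smul]
    | add u u' hu hu' => rw [map_add, map_add, map_add, map_add, map_add, hu, hu', map_add]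
  have h2 : ∀ (j : ℕ) (u : R''.V), ψ (κ.symm ((R''.N ^ j) u)) = (R.N ^ j) (ψ (κ.symm u)) := by
    intro j
    induction j with
    | zero => intro u; rfl
    | succ j ih =>
      intro u
      rw [pow_succ', Module.End.mul_apply, pow_succ', Module.End.mul_apply, ← ih, ← h1,
        LinearEquiv.apply_symm_apply]
  refine ⟨ψ (κ.symm t), ?_⟩
  rw [← h2, ht, tm, LinearEquiv.symm_apply_apply, hψ, hg, one_smul]

lemma twist_N {κ : R.V ⊗[Ω] R'.V ≃ₗ[Ω] R''.V} (hκ : IsKunneth R R' R'' κ) (hN' : R'.N = 0)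
    {y : R'.V} {x : R.V} (hx : R.N x = 0) : R''.N (tm κ x y) = 0 := by
  rw [hκ.monodromy, hx, hN', LinearMap.zero_apply, tm, tm, TensorProduct.zero_tmul,
    TensorProduct.tmul_zero, map_zero, add_zero]

lemma twist_F {κ : R.V ⊗[Ω] R'.V ≃ₗ[Ω] R''.V} (hκ : IsKunneth R R' R'' κ)
    {y : R'.V} {x : R.V} {β γ : Ω} (hx : R.F x = β • x) (hy : R'.F y = γ • y) :
    R''.F (tm κ x y) = (β * γ) • tm κ x y := by
  rw [hκ.frob, hx, hy, tm, tm, TensorProduct.smul_tmul_smul, map_smul]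

/-- The space `H^m(X)(r)^G` of the vectors of `H^m(X)` which are killed by `N` and on which the
Frobenius is the multiplication by `q ^ r`. -/
noncomputable def Inv (R : Coh.{v, w} Ω) (q m r : ℕ) : Submodule Ω R.V :=
  R.gr m ⊓ (LinearMap.ker R.N ⊓ LinearMap.ker (R.F - ((q : Ω) ^ r) • (1 : Module.End Ω R.V)))

lemma mem_Inv {m r : ℕ} {x : R.V} : x ∈ Inv R q m r ↔
    x ∈ R.gr m ∧ R.N x = 0 ∧ R.F x = ((q : Ω) ^ r) • x := by
  rw [Inv, Submodule.mem_inf, Submodule.mem_inf, LinearMap.mem_ker, LinearMap.mem_ker,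
    LinearMap.sub_apply, LinearMap.smul_apply, Module.End.one_apply, sub_eq_zero]

/-- The invariants vanish if the weight is too large. -/
lemma inv_eq_bot (hq : 1 < q) (hR : R.IsCoh q) {m r : ℕ} (h : R.MWPure q m) (hm : m < 2 * r) :
    Inv R q m r = ⊥ := by
  rw [eq_bot_iff]
  intro x hx
  obtain ⟨h1, h2, h3⟩ := mem_Inv.1 hx
  exact ker_pos hq hR h h1 h2 h3 (weil_natPow (by omega) r) (by omega)

lemma inv_le (hq : 1 < q) (hR : R.IsCoh q) {m r : ℕ} (h : R.MWPure q m) (hm : m ≠ 2 * r) :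
    Inv R q m r ≤ LinearMap.range R.N := by
  rcases Nat.lt_or_gt_of_ne hm with hlt | hgt
  · rw [inv_eq_bot hq hR h hlt]
    exact bot_le
  · intro x hx
    obtain ⟨h1, h2, h3⟩ := mem_Inv.1 hx
    obtain ⟨u, -, -, hu⟩ := ker_neg hq hR h h1 h3 (weil_natPow (by omega) r)
      (a := m - 2 * r) (by omega)
    obtain ⟨j, hj⟩ : ∃ j, m - 2 * r = j + 1 := ⟨m - 2 * r - 1, by omega⟩
    rw [hj, pow_succ', Module.End.mul_apply] at hu
    exact ⟨_, hu⟩

end Pool.Agent.H44T.MW
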